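import Mathlib.RingTheory.MvPolynomial.Basic
import Mathlib.RingTheory.Polynomial.Basic
import Mathlib.RingTheory.Ideal.MinimalPrime.Basic
import Mathlib.RingTheory.Noetherian.Basic
import Mathlib.Algebra.DualNumber
import Mathlib.RingTheory.AdjoinRoot
import Mathlib.Tactic

/-!
MP_dc74b6_ag: jet ideals of clutter edge ideals with embedded components.

The clutter is the triangle `xy, yz, xz`. If `char k ≠ 2` then `y₁z₀ ∉ J₁` is annihilated by
`x₀, y₀, z₀, x₁`, while `(x₀, y₀, z₀)` is a prime containing `J₁`. If `char k = 2` then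
`y₁²z₀ ∉ J₂` is annihilated by `x₀, x₁, x₂, y₀, z₀, z₁`, while `(x₀, x₁, y₀, z₀, z₁) ⊇ J₂`.
-/

set_option autoImplicit false

namespace Pool.Agent.Results.MP_dc74b6_ag.EmbeddedJets

open MvPolynomial

/-- `P` is an associated prime of the ideal `I` (that is, of `R / I`): a prime ideal of the form
`I : f`. -/
def IsAssociated {R : Type} [CommRing R] (I P : Ideal R) : Prop :=
  P.IsPrime ∧ ∃ f : R, ∀ g : R, g ∈ P ↔ g * f ∈ I

/-- The ideal `I` has an embedded component: an associated prime which is not a minimal prime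
over `I`. -/
def HasEmbeddedComponent {R : Type} [CommRing R] (I : Ideal R) : Prop :=
  ∃ P : Ideal R, IsAssociated I P ∧ P ∉ I.minimalPrimes

/-- A clutter on `Fin n`: a family of nonempty subsets, none of which contains another. -/
structure Clutter (n : ℕ) where
  /-- the edges -/
  edges : Set (Finset (Fin n))
  nonempty : ∀ e ∈ edges, e.Nonempty
  antichain : ∀ e ∈ edges, ∀ e' ∈ edges, e ⊆ e' → e = e'

/-- the edge ideal `I(C)` in `k[x_1, …, x_n]` -/
noncomputable def edgeIdeal (k : Type) [Field k] {n : ℕ} (C : Clutter n) :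
    Ideal (MvPolynomial (Fin n) k) :=
  Ideal.span {f | ∃ e ∈ C.edges, f = ∏ i ∈ e, X i}

/-- The substitution `x_i ↦ ∑_{j ≤ s} x_{i,j} t^j`, a homomorphism from `k[x_1, …, x_n]` to
`k[x_{i,j}][t]`. -/
noncomputable def jetSubst (k : Type) [Field k] (n s : ℕ) :
    MvPolynomial (Fin n) k →ₐ[k] Polynomial (MvPolynomial (Fin n × Fin (s + 1)) k) :=
  aeval fun i => ∑ j : Fin (s + 1), Polynomial.C (X (i, j)) * Polynomial.X ^ (j : ℕ)

/-- The `s`-jet ideal of `I`: generated by the coefficients `f^(j)` of `t^j`, `0 ≤ j ≤ s`, of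
`f(∑ x_{1,j} t^j, …, ∑ x_{n,j} t^j)` for `f ∈ I`. -/
noncomputable def jetIdeal (k : Type) [Field k] {n : ℕ} (s : ℕ)
    (I : Ideal (MvPolynomial (Fin n) k)) : Ideal (MvPolynomial (Fin n × Fin (s + 1)) k) :=
  Ideal.span {g | ∃ f ∈ I, ∃ j : ℕ, j ≤ s ∧ g = (jetSubst k n s f).coeff j}

/-! ### Associated primes -/

section

variable {R : Type} [CommRing R] (I : Ideal R) (M : Submonoid R)

/-- the ideal of all `g` with `t g s ∈ I` for some `t ∈ M` -/
def sat (s : R) : Ideal R where
  carrier := {g | ∃ t ∈ M, t * g * s ∈ I}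
  add_mem' := by
    rintro a b ⟨t, ht, hta⟩ ⟨u, hu, hub⟩
    refine ⟨t * u, M.mul_mem ht hu, ?_⟩
    have : t * u * (a + b) * s = u * (t * a * s) + t * (u * b * s) := by ring
    rw [this]
    exact I.add_mem (I.mul_mem_left _ hta) (I.mul_mem_left _ hub)
  zero_mem' := ⟨1, M.one_mem, by simp⟩
  smul_mem' := by
    rintro c a ⟨t, ht, hta⟩
    refine ⟨t, ht, ?_⟩
    have : t * (c • a) * s = c * (t * a * s) := by rw [smul_eq_mul]; ring
    rw [this]
    exact I.mul_mem_left _ hta

lemma mem_sat (s g : R) : g ∈ sat I M s ↔ ∃ t ∈ M, t * g * s ∈ I := Iff.rfl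

variable [IsNoetherianRing R]

lemma exists_associated (s₀ : R) (hs₀ : ∀ t ∈ M, t * s₀ ∉ I) :
    ∃ P : Ideal R, IsAssociated I P ∧ (∀ t ∈ M, t ∉ P) ∧ ∀ g, g * s₀ ∈ I → g ∈ P := by
  classical
  let F : Set (Ideal R) := {J | ∃ s', J = sat I M (s' * s₀) ∧ (1 : R) ∉ J}
  have hF : F.Nonempty := by
    refine ⟨sat I M (1 * s₀), 1, rfl, ?_⟩
    rintro ⟨t, ht, h⟩
    rw [mul_one, one_mul] at h
    exact hs₀ t ht h
  obtain ⟨P, ⟨s', hP, h1⟩, hmax⟩ := set_has_maximal_iff_noetherian.mpr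
    (inferInstance : IsNoetherian R R) F hF
  subst hP
  set s := s' * s₀ with hs
  have hprime : (sat I M s).IsPrime := by
    refine ⟨fun h => h1 ((Ideal.eq_top_iff_one _).mp h), fun {g g'} hgg' => ?_⟩
    by_contra hcon
    push Not at hcon
    obtain ⟨hg, hg'⟩ := hcon
    have hle : sat I M s ≤ sat I M ((g' * s') * s₀) := by
      rintro c ⟨t, ht, hc⟩
      refine ⟨t, ht, ?_⟩
      have : t * c * (g' * s' * s₀) = g' * (t * c * s) := by rw [hs]; ring
      rw [this]
      exact I.mul_mem_left _ hc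
    have hne : (1 : R) ∉ sat I M ((g' * s') * s₀) := by
      rintro ⟨t, ht, hc⟩
      apply hg'
      refine ⟨t, ht, ?_⟩
      have : t * g' * s = t * 1 * (g' * s' * s₀) := by rw [hs]; ring
      rw [this]
      exact hc
    have hnlt := hmax _ ⟨g' * s', rfl, hne⟩
    have heq : sat I M s = sat I M ((g' * s') * s₀) := by
      by_contra hne'
      exact hnlt (lt_of_le_of_ne hle hne')
    apply hg
    rw [heq]
    obtain ⟨t, ht, hc⟩ := hgg'
    refine ⟨t, ht, ?_⟩
    have : t * g * (g' * s' * s₀) = t * (g * g') * s := by rw [hs]; ring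
    rw [this]
    exact hc
  refine ⟨sat I M s, ⟨hprime, ?_⟩, ?_, ?_⟩
  · obtain ⟨T, hT⟩ := (isNoetherianRing_iff_ideal_fg R).mp inferInstance (sat I M s)
    have hall : ∀ T' : Finset R, (∀ g ∈ T', g ∈ sat I M s) → ∃ t ∈ M, ∀ g ∈ T', t * g * s ∈ I := by
      intro T'
      induction T' using Finset.induction_on with
      | empty => exact fun _ => ⟨1, M.one_mem, by simp⟩
      | insert a T' ha ih =>
        intro h
        obtain ⟨t, ht, hts⟩ := ih fun g hg => h g (Finset.mem_insert_of_mem hg)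
        obtain ⟨u, hu, hus⟩ := h a (Finset.mem_insert_self _ _)
        refine ⟨t * u, M.mul_mem ht hu, fun g hg => ?_⟩
        rcases Finset.mem_insert.mp hg with rfl | hg
        · have : t * u * g * s = t * (u * g * s) := by ring
          rw [this]
          exact I.mul_mem_left _ hus
        · have : t * u * g * s = u * (t * g * s) := by ring
          rw [this]
          exact I.mul_mem_left _ (hts g hg)
    obtain ⟨t, ht, hts⟩ := hall T fun g hg => by
      rw [← hT]
      exact Ideal.subset_span hg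
    refine ⟨t * s, fun g => ⟨fun hg => ?_, fun hg => ⟨t, ht, ?_⟩⟩⟩
    · rw [← hT] at hg
      induction hg using Submodule.span_induction with
      | mem g hg =>
        have : g * (t * s) = t * g * s := by ring
        rw [this]
        exact hts g hg
      | zero => rw [zero_mul]; exact I.zero_mem
      | add g g' _ _ h h' => rw [add_mul]; exact I.add_mem h h'
      | smul r g _ h => rw [smul_eq_mul, mul_assoc]; exact I.mul_mem_left _ h
    · have : t * g * s = g * (t * s) := by ring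
      rw [this]
      exact hg
  · rintro t ht ⟨u, hu, h⟩
    apply h1
    refine ⟨u * t, M.mul_mem hu ht, ?_⟩
    rw [mul_one]
    exact h
  · intro g hg
    refine ⟨1, M.one_mem, ?_⟩
    have : 1 * g * s = s' * (g * s₀) := by rw [hs]; ring
    rw [this]
    exact I.mul_mem_left _ hg

lemma embedded_of (s₀ : R) (hs₀ : s₀ ∉ I)
    (h : ∀ Q : Ideal R, Q.IsPrime → (∀ g, g * s₀ ∈ I → g ∈ Q) →
      ∃ P : Ideal R, P.IsPrime ∧ I ≤ P ∧ P < Q) :
    HasEmbeddedComponent I := by
  obtain ⟨Q, hQ, hQM, hQI⟩ := exists_associated I ⊥ s₀ (by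
    intro t ht
    rw [Submonoid.mem_bot.mp ht, one_mul]
    exact hs₀)
  obtain ⟨P, hP, hIP, hPQ⟩ := h Q hQ.1 hQI
  exact ⟨Q, hQ, fun hmin => not_lt_of_ge (hmin.2 ⟨hP, hIP⟩ hPQ.le) hPQ⟩

end


/-! ### The triangle -/

/-- the triangle with vertices `x, y, z = 0, 1, 2` -/
def triangle : Clutter 3 where
  edges := {{0, 1}, {1, 2}, {0, 2}}
  nonempty := by
    rintro e (rfl | rfl | rfl) <;> decide
  antichain := by
    rintro e (rfl | rfl | rfl) e' (rfl | rfl | rfl) <;> decide

variable {k : Type} [Field k]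

lemma jetSubst_X (n s : ℕ) (i : Fin n) : jetSubst k n s (X i) =
    ∑ j : Fin (s + 1), Polynomial.C (X (i, j)) * Polynomial.X ^ (j : ℕ) := by
  rw [jetSubst, aeval_X]

/-- criterion for the kernel of a homomorphism to contain the jet ideal -/
lemma jetIdeal_le_ker {n s : ℕ} (C : Clutter n) {E : Type} [CommRing E]
    (φ : MvPolynomial (Fin n × Fin (s + 1)) k →+* E)
    (h : ∀ e ∈ C.edges, (Polynomial.X : Polynomial E) ^ (s + 1) ∣
      ∏ i ∈ e, ∑ j : Fin (s + 1), Polynomial.C (φ (X (i, j))) * Polynomial.X ^ (j : ℕ)) :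
    jetIdeal k s (edgeIdeal k C) ≤ RingHom.ker φ := by
  rw [jetIdeal, Ideal.span_le]
  rintro _ ⟨f, hf, j, hj, rfl⟩
  rw [SetLike.mem_coe, RingHom.mem_ker, ← Polynomial.coeff_map]
  let F : MvPolynomial (Fin n) k →+* Polynomial E :=
    (Polynomial.mapRingHom φ).comp (jetSubst k n s : MvPolynomial (Fin n) k →+* _)
  have hF : edgeIdeal k C ≤ (Ideal.span {(Polynomial.X : Polynomial E) ^ (s + 1)}).comap F := by
    rw [edgeIdeal, Ideal.span_le]
    rintro _ ⟨e, he, rfl⟩
    rw [SetLike.mem_coe, Ideal.mem_comap, Ideal.mem_span_singleton, map_prod]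
    convert h e he using 2 with i
    simp [F, jetSubst_X, Polynomial.map_sum]
  have h1 : (Polynomial.X : Polynomial E) ^ (s + 1) ∣ F f :=
    Ideal.mem_span_singleton.mp (hF hf)
  exact Polynomial.X_pow_dvd_iff.mp h1 j (by omega)

/-- the coefficients of the generators are in the jet ideal -/
lemma coeff_mem {n s : ℕ} (C : Clutter n) (e : Finset (Fin n)) (he : e ∈ C.edges) (j : ℕ)
    (hj : j ≤ s) :
    (∏ i ∈ e, ∑ j : Fin (s + 1), Polynomial.C (X (i, j)) * Polynomial.X ^ (j : ℕ) :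
      Polynomial (MvPolynomial (Fin n × Fin (s + 1)) k)).coeff j ∈
        jetIdeal k s (edgeIdeal k C) := by
  refine Ideal.subset_span ⟨∏ i ∈ e, X i, Ideal.subset_span ⟨e, he, rfl⟩, j, hj, ?_⟩
  rw [map_prod]
  simp only [jetSubst_X]

/-- the prime generated by the variables in `K` -/
noncomputable def kill {σ : Type} [DecidableEq σ] (K : Finset σ) :
    MvPolynomial σ k →ₐ[k] MvPolynomial σ k :=
  aeval fun v => if v ∈ K then 0 else X v

lemma kill_X {σ : Type} [DecidableEq σ] (K : Finset σ) (v : σ) :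
    kill (k := k) K (X v) = if v ∈ K then 0 else X v := by
  rw [kill, aeval_X]

lemma ker_kill_le {σ : Type} [DecidableEq σ] (K : Finset σ) (Q : Ideal (MvPolynomial σ k))
    (h : ∀ v ∈ K, X v ∈ Q) : RingHom.ker (kill (k := k) K).toRingHom ≤ Q := by
  intro g hg
  have e : (Ideal.Quotient.mk Q).comp (kill (k := k) K).toRingHom =
      Ideal.Quotient.mk Q := by
    apply MvPolynomial.ringHom_ext
    · intro r
      simp [kill]
    · intro v
      rw [RingHom.comp_apply]
      change Ideal.Quotient.mk Q (kill (k := k) K (X v)) = _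
      rw [kill_X]
      by_cases hv : v ∈ K
      · rw [if_pos hv, map_zero, Ideal.Quotient.eq_zero_iff_mem.mpr (h v hv)]
      · rw [if_neg hv]
  rw [← Ideal.Quotient.eq_zero_iff_mem, ← e, RingHom.comp_apply, RingHom.mem_ker.mp hg, map_zero]

/-- the conclusion from the data -/
lemma finish {s : ℕ} (K : Finset (Fin 3 × Fin (s + 1))) (v₀ : Fin 3 × Fin (s + 1))
    (hv₀ : v₀ ∉ K) (m : MvPolynomial (Fin 3 × Fin (s + 1)) k)
    (hm : m ∉ jetIdeal k s (edgeIdeal k triangle))
    (hK : ∀ v ∈ K, X v * m ∈ jetIdeal k s (edgeIdeal k triangle))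
    (h₀ : X v₀ * m ∈ jetIdeal k s (edgeIdeal k triangle))
    (hle : jetIdeal k s (edgeIdeal k triangle) ≤
      RingHom.ker (kill (k := k) K).toRingHom) :
    HasEmbeddedComponent (jetIdeal k s (edgeIdeal k triangle)) := by
  refine embedded_of _ m hm fun Q hQ hQI => ?_
  refine ⟨_, RingHom.ker_isPrime (kill (k := k) K).toRingHom,
    hle, lt_of_le_of_ne (ker_kill_le K Q fun v hv => hQI _ (hK v hv)) ?_⟩
  intro h
  have h1 : X v₀ ∈ Q := hQI _ h₀
  rw [← h, RingHom.mem_ker] at h1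
  change kill (k := k) K (X v₀) = 0 at h1
  rw [kill_X, if_neg hv₀] at h1
  exact X_ne_zero v₀ h1

/-! ### `s = 1`, characteristic not two -/

lemma prod_pair' {n : ℕ} {M : Type} [CommMonoid M] (u v : Fin n) (h : u ≠ v) (f : Fin n → M) :
    ∏ i ∈ ({u, v} : Finset (Fin n)), f i = f u * f v := Finset.prod_pair h

lemma mem1_0 (u v : Fin 3) (h : u ≠ v) (he : ({u, v} : Finset (Fin 3)) ∈ triangle.edges) :
    (X (u, 0) * X (v, 0) : MvPolynomial (Fin 3 × Fin 2) k) ∈
      jetIdeal k 1 (edgeIdeal k triangle) := by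
  have := coeff_mem (k := k) (s := 1) triangle _ he 0 (by norm_num)
  rw [prod_pair' u v h] at this
  simpa [Fin.sum_univ_two, Polynomial.mul_coeff_zero] using this

lemma mem1_1 (u v : Fin 3) (h : u ≠ v) (he : ({u, v} : Finset (Fin 3)) ∈ triangle.edges) :
    (X (u, 0) * X (v, 1) + X (u, 1) * X (v, 0) : MvPolynomial (Fin 3 × Fin 2) k) ∈
      jetIdeal k 1 (edgeIdeal k triangle) := by
  have := coeff_mem (k := k) (s := 1) triangle _ he 1 (by norm_num)
  rw [prod_pair' u v h] at this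
  simpa [Fin.sum_univ_two, Polynomial.mul_coeff_one] using this

lemma e01 : ({0, 1} : Finset (Fin 3)) ∈ triangle.edges := Or.inl rfl

lemma e12 : ({1, 2} : Finset (Fin 3)) ∈ triangle.edges := Or.inr (Or.inl rfl)

lemma e02 : ({0, 2} : Finset (Fin 3)) ∈ triangle.edges := Or.inr (Or.inr rfl)

/-- the point `x = 0`, `y = ε + t`, `z = ε - t` -/
noncomputable def ptA (k : Type) [Field k] : Fin 3 × Fin 2 → DualNumber k := fun v =>
  (![![0, 0], ![DualNumber.eps, 1], ![DualNumber.eps, -1]] : Fin 3 → Fin 2 → DualNumber k) v.1 v.2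

lemma notMemA : (X (1, 1) * X (2, 0) : MvPolynomial (Fin 3 × Fin 2) k) ∉
    jetIdeal k 1 (edgeIdeal k triangle) := by
  intro h
  have hle : jetIdeal k 1 (edgeIdeal k triangle) ≤
      RingHom.ker (eval₂Hom (algebraMap k (DualNumber k)) (ptA k)) := by
    apply jetIdeal_le_ker
    rintro e (rfl | rfl | rfl)
    · rw [prod_pair' 0 1 (by decide)]
      simp [Fin.sum_univ_two, ptA]
    · rw [prod_pair' 1 2 (by decide)]
      simp only [ptA, eval₂Hom_X']
      refine ⟨-1, ?_⟩
      have hε : Polynomial.C (DualNumber.eps : DualNumber k) * Polynomial.C DualNumber.eps = 0 := by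
        rw [← map_mul, DualNumber.eps_mul_eps, map_zero]
      simp
      linear_combination hε
    · rw [prod_pair' 0 2 (by decide)]
      simp [Fin.sum_univ_two, ptA]
  have h0 := hle h
  rw [RingHom.mem_ker, map_mul, eval₂Hom_X', eval₂Hom_X'] at h0
  have h1 := congrArg TrivSqZeroExt.snd h0
  simp [ptA] at h1

lemma caseA (h2 : (2 : k) ≠ 0) :
    HasEmbeddedComponent (jetIdeal k 1 (edgeIdeal k triangle)) := by
  have A0 := mem1_0 (k := k) 0 1 (by decide) e01
  have A1 := mem1_1 (k := k) 0 1 (by decide) e01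
  have B0 := mem1_0 (k := k) 1 2 (by decide) e12
  have B1 := mem1_1 (k := k) 1 2 (by decide) e12
  have C0 := mem1_0 (k := k) 0 2 (by decide) e02
  have C1 := mem1_1 (k := k) 0 2 (by decide) e02
  set J := jetIdeal k 1 (edgeIdeal k triangle) with hJ
  refine finish (s := 1) {(0, 0), (1, 0), (2, 0)} (0, 1) (by decide) (X (1, 1) * X (2, 0))
    notMemA ?_ ?_ ?_
  · intro v hv
    simp only [Finset.mem_insert, Finset.mem_singleton] at hv
    rcases hv with rfl | rfl | rfl
    · have e : (X (0, 0) * (X (1, 1) * X (2, 0)) : MvPolynomial (Fin 3 × Fin 2) k) =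
          X (1, 1) * (X (0, 0) * X (2, 0)) := by ring
      rw [e]
      exact J.mul_mem_left _ C0
    · have e : (X (1, 0) * (X (1, 1) * X (2, 0)) : MvPolynomial (Fin 3 × Fin 2) k) =
          X (1, 1) * (X (1, 0) * X (2, 0)) := by ring
      rw [e]
      exact J.mul_mem_left _ B0
    · have e : (X (2, 0) * (X (1, 1) * X (2, 0)) : MvPolynomial (Fin 3 × Fin 2) k) =
          X (2, 0) * (X (1, 0) * X (2, 1) + X (1, 1) * X (2, 0)) -
            X (2, 1) * (X (1, 0) * X (2, 0)) := by ring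
      rw [e]
      exact J.sub_mem (J.mul_mem_left _ B1) (J.mul_mem_left _ B0)
  · have h2' : (C (2 : k)⁻¹ * 2 : MvPolynomial (Fin 3 × Fin 2) k) = 1 := by
      have : (2 : MvPolynomial (Fin 3 × Fin 2) k) = C 2 := (map_ofNat C 2).symm
      rw [this, ← C_mul, inv_mul_cancel₀ h2, C_1]
    have e : (X (0, 1) * (X (1, 1) * X (2, 0)) : MvPolynomial (Fin 3 × Fin 2) k) =
        C (2 : k)⁻¹ * (X (1, 1) * (X (0, 0) * X (2, 1) + X (0, 1) * X (2, 0)) -
          X (2, 1) * (X (0, 0) * X (1, 1) + X (0, 1) * X (1, 0)) +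
          X (0, 1) * (X (1, 0) * X (2, 1) + X (1, 1) * X (2, 0))) := by
      linear_combination -(X (0, 1) * X (1, 1) * X (2, 0)) * h2'
    rw [e]
    exact J.mul_mem_left _ (J.add_mem (J.sub_mem (J.mul_mem_left _ C1) (J.mul_mem_left _ A1))
      (J.mul_mem_left _ B1))
  · apply jetIdeal_le_ker
    rintro e (rfl | rfl | rfl)
    · rw [prod_pair' 0 1 (by decide)]
      refine ⟨Polynomial.C (X (0, 1)) * Polynomial.C (X (1, 1)), ?_⟩
      simp [Fin.sum_univ_two, kill_X]
      ring
    · rw [prod_pair' 1 2 (by decide)]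
      refine ⟨Polynomial.C (X (1, 1)) * Polynomial.C (X (2, 1)), ?_⟩
      simp [Fin.sum_univ_two, kill_X]
      ring
    · rw [prod_pair' 0 2 (by decide)]
      refine ⟨Polynomial.C (X (0, 1)) * Polynomial.C (X (2, 1)), ?_⟩
      simp [Fin.sum_univ_two, kill_X]
      ring

/-! ### `s = 2`, characteristic two -/

lemma sum3 {σ : Type} (a : Fin 3 → MvPolynomial σ k) :
    (∑ j : Fin 3, Polynomial.C (a j) * Polynomial.X ^ (j : ℕ) : Polynomial (MvPolynomial σ k)) =
      Polynomial.C (a 0) + Polynomial.C (a 1) * Polynomial.X +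
        Polynomial.C (a 2) * Polynomial.X ^ 2 := by
  rw [Fin.sum_univ_three]
  simp

lemma coeff_prod3 {σ : Type} (a b : Fin 3 → MvPolynomial σ k) :
    ((∑ j : Fin 3, Polynomial.C (a j) * Polynomial.X ^ (j : ℕ)) *
      (∑ j : Fin 3, Polynomial.C (b j) * Polynomial.X ^ (j : ℕ)) :
        Polynomial (MvPolynomial σ k)) =
      Polynomial.C (a 0 * b 0) + Polynomial.C (a 0 * b 1 + a 1 * b 0) * Polynomial.X +
      Polynomial.C (a 0 * b 2 + a 1 * b 1 + a 2 * b 0) * Polynomial.X ^ 2 +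
      Polynomial.C (a 1 * b 2 + a 2 * b 1) * Polynomial.X ^ 3 +
      Polynomial.C (a 2 * b 2) * Polynomial.X ^ 4 := by
  rw [sum3, sum3]
  simp only [map_add, map_mul]
  ring

lemma mem2_0 (u v : Fin 3) (h : u ≠ v) (he : ({u, v} : Finset (Fin 3)) ∈ triangle.edges) :
    (X (u, 0) * X (v, 0) : MvPolynomial (Fin 3 × Fin 3) k) ∈
      jetIdeal k 2 (edgeIdeal k triangle) := by
  have := coeff_mem (k := k) (s := 2) triangle _ he 0 (by norm_num)
  rw [prod_pair' u v h, coeff_prod3 (fun j => X (u, j)) (fun j => X (v, j))] at this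
  simp only [Polynomial.coeff_add, Polynomial.coeff_C_mul, Polynomial.coeff_X_pow,
    Polynomial.coeff_X, Polynomial.coeff_C] at this
  simpa using this

lemma mem2_1 (u v : Fin 3) (h : u ≠ v) (he : ({u, v} : Finset (Fin 3)) ∈ triangle.edges) :
    (X (u, 0) * X (v, 1) + X (u, 1) * X (v, 0) : MvPolynomial (Fin 3 × Fin 3) k) ∈
      jetIdeal k 2 (edgeIdeal k triangle) := by
  have := coeff_mem (k := k) (s := 2) triangle _ he 1 (by norm_num)
  rw [prod_pair' u v h, coeff_prod3 (fun j => X (u, j)) (fun j => X (v, j))] at this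
  simp only [Polynomial.coeff_add, Polynomial.coeff_C_mul, Polynomial.coeff_X_pow,
    Polynomial.coeff_X, Polynomial.coeff_C] at this
  simpa using this

lemma mem2_2 (u v : Fin 3) (h : u ≠ v) (he : ({u, v} : Finset (Fin 3)) ∈ triangle.edges) :
    (X (u, 0) * X (v, 2) + X (u, 1) * X (v, 1) + X (u, 2) * X (v, 0) :
      MvPolynomial (Fin 3 × Fin 3) k) ∈ jetIdeal k 2 (edgeIdeal k triangle) := by
  have := coeff_mem (k := k) (s := 2) triangle _ he 2 (by norm_num)
  rw [prod_pair' u v h, coeff_prod3 (fun j => X (u, j)) (fun j => X (v, j))] at this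
  simp only [Polynomial.coeff_add, Polynomial.coeff_C_mul, Polynomial.coeff_X_pow,
    Polynomial.coeff_X, Polynomial.coeff_C] at this
  simpa using this

/-- `k[b] / (b³)` -/
abbrev B3 (k : Type) [Field k] : Type := Polynomial k ⧸ Ideal.span {(Polynomial.X : Polynomial k) ^ 3}

/-- the class of `b` -/
noncomputable def b3 (k : Type) [Field k] : B3 k := Ideal.Quotient.mk _ Polynomial.X

lemma b3_cube : b3 k * b3 k * b3 k = 0 := by
  rw [b3, ← map_mul, ← map_mul, Ideal.Quotient.eq_zero_iff_mem, Ideal.mem_span_singleton]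
  exact ⟨1, by ring⟩

lemma b3_sq_ne : b3 k * b3 k ≠ 0 := by
  rw [b3, ← map_mul, Ne, Ideal.Quotient.eq_zero_iff_mem, Ideal.mem_span_singleton]
  intro h
  have := Polynomial.X_pow_dvd_iff.mp h 2 (by norm_num)
  rw [← pow_two, Polynomial.coeff_X_pow, if_pos rfl] at this
  exact one_ne_zero this

/-- the point `x = 0`, `y = b + t`, `z = b² - b t + t²` over `k[b] / (b³)` -/
noncomputable def ptB (k : Type) [Field k] : Fin 3 × Fin 3 → B3 k := fun v =>
  (![![0, 0, 0], ![b3 k, 1, 0], ![b3 k * b3 k, -b3 k, 1]] : Fin 3 → Fin 3 → B3 k) v.1 v.2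

lemma notMemB : (X (1, 1) ^ 2 * X (2, 0) : MvPolynomial (Fin 3 × Fin 3) k) ∉
    jetIdeal k 2 (edgeIdeal k triangle) := by
  intro h
  have hle : jetIdeal k 2 (edgeIdeal k triangle) ≤
      RingHom.ker (eval₂Hom (algebraMap k (B3 k)) (ptB k)) := by
    apply jetIdeal_le_ker
    rintro e (rfl | rfl | rfl)
    · rw [prod_pair' 0 1 (by decide)]
      simp [Fin.sum_univ_three, ptB]
    · rw [prod_pair' 1 2 (by decide)]
      simp only [ptB, eval₂Hom_X']
      refine ⟨1, ?_⟩
      have hε : Polynomial.C (b3 k) * Polynomial.C (b3 k) * Polynomial.C (b3 k) = 0 := by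
        rw [← map_mul, ← map_mul, b3_cube, map_zero]
      simp [Fin.sum_univ_three]
      linear_combination hε
    · rw [prod_pair' 0 2 (by decide)]
      simp [Fin.sum_univ_three, ptB]
  have h0 := hle h
  rw [RingHom.mem_ker, map_mul, map_pow, eval₂Hom_X', eval₂Hom_X'] at h0
  apply b3_sq_ne (k := k)
  simpa [ptB] using h0

lemma caseB (h2 : (2 : k) = 0) :
    HasEmbeddedComponent (jetIdeal k 2 (edgeIdeal k triangle)) := by
  have A0 := mem2_0 (k := k) 0 1 (by decide) e01
  have A1 := mem2_1 (k := k) 0 1 (by decide) e01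
  have A2 := mem2_2 (k := k) 0 1 (by decide) e01
  have B0 := mem2_0 (k := k) 1 2 (by decide) e12
  have B1 := mem2_1 (k := k) 1 2 (by decide) e12
  have B2 := mem2_2 (k := k) 1 2 (by decide) e12
  have C0 := mem2_0 (k := k) 0 2 (by decide) e02
  have C1 := mem2_1 (k := k) 0 2 (by decide) e02
  have C2 := mem2_2 (k := k) 0 2 (by decide) e02
  set J := jetIdeal k 2 (edgeIdeal k triangle) with hJ
  have h2' : (2 : MvPolynomial (Fin 3 × Fin 3) k) = 0 := by
    rw [← map_ofNat C 2, h2, C_0]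
  refine finish (s := 2) {(0, 0), (0, 1), (1, 0), (2, 0), (2, 1)} (0, 2) (by decide)
    (X (1, 1) ^ 2 * X (2, 0)) notMemB ?_ ?_ ?_
  · intro v hv
    simp only [Finset.mem_insert, Finset.mem_singleton] at hv
    rcases hv with rfl | rfl | rfl | rfl | rfl
    · have e : (X (0, 0) * (X (1, 1) ^ 2 * X (2, 0)) : MvPolynomial (Fin 3 × Fin 3) k) =
          X (1, 1) ^ 2 * (X (0, 0) * X (2, 0)) := by ring
      rw [e]
      exact J.mul_mem_left _ C0
    · have e : (X (0, 1) * (X (1, 1) ^ 2 * X (2, 0)) : MvPolynomial (Fin 3 × Fin 3) k) =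
          X (1, 1) * X (2, 0) * (X (0, 0) * X (1, 2) + X (0, 1) * X (1, 1) + X (0, 2) * X (1, 0)) -
          X (1, 1) * X (1, 2) * (X (0, 0) * X (2, 0)) -
          X (0, 2) * X (1, 1) * (X (1, 0) * X (2, 0)) := by ring
      rw [e]
      exact J.sub_mem (J.sub_mem (J.mul_mem_left _ A2) (J.mul_mem_left _ C0))
        (J.mul_mem_left _ B0)
    · have e : (X (1, 0) * (X (1, 1) ^ 2 * X (2, 0)) : MvPolynomial (Fin 3 × Fin 3) k) =
          X (1, 1) ^ 2 * (X (1, 0) * X (2, 0)) := by ring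
      rw [e]
      exact J.mul_mem_left _ B0
    · have e : (X (2, 0) * (X (1, 1) ^ 2 * X (2, 0)) : MvPolynomial (Fin 3 × Fin 3) k) =
          X (1, 1) * X (2, 0) * (X (1, 0) * X (2, 1) + X (1, 1) * X (2, 0)) -
          X (1, 1) * X (2, 1) * (X (1, 0) * X (2, 0)) := by ring
      rw [e]
      exact J.sub_mem (J.mul_mem_left _ B1) (J.mul_mem_left _ B0)
    · have e : (X (2, 1) * (X (1, 1) ^ 2 * X (2, 0)) : MvPolynomial (Fin 3 × Fin 3) k) =
          X (1, 1) * X (2, 0) * (X (1, 0) * X (2, 2) + X (1, 1) * X (2, 1) + X (1, 2) * X (2, 0)) -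
          X (1, 1) * X (2, 2) * (X (1, 0) * X (2, 0)) -
          (X (1, 2) * X (2, 0) * (X (1, 0) * X (2, 1) + X (1, 1) * X (2, 0)) -
          X (1, 2) * X (2, 1) * (X (1, 0) * X (2, 0))) := by ring
      rw [e]
      exact J.sub_mem (J.sub_mem (J.mul_mem_left _ B2) (J.mul_mem_left _ B0))
        (J.sub_mem (J.mul_mem_left _ B1) (J.mul_mem_left _ B0))
  · have e : (X (0, 2) * (X (1, 1) ^ 2 * X (2, 0)) : MvPolynomial (Fin 3 × Fin 3) k) =
        X (1, 1) ^ 2 * (X (0, 0) * X (2, 2) + X (0, 1) * X (2, 1) + X (0, 2) * X (2, 0)) -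
        X (1, 1) * X (2, 2) * (X (0, 0) * X (1, 1) + X (0, 1) * X (1, 0)) +
        X (0, 1) * X (1, 1) * (X (1, 0) * X (2, 2) + X (1, 1) * X (2, 1) + X (1, 2) * X (2, 0)) -
        X (1, 2) * (X (2, 0) * (X (0, 0) * X (1, 2) + X (0, 1) * X (1, 1) + X (0, 2) * X (1, 0)) -
          X (1, 2) * (X (0, 0) * X (2, 0)) - X (0, 2) * (X (1, 0) * X (2, 0))) := by
      linear_combination (-(X (0, 1) * X (1, 1) ^ 2 * X (2, 1))) * h2'
    rw [e]
    exact J.sub_mem (J.add_mem (J.sub_mem (J.mul_mem_left _ C2) (J.mul_mem_left _ A1))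
      (J.mul_mem_left _ B2)) (J.mul_mem_left _ (J.sub_mem (J.sub_mem (J.mul_mem_left _ A2)
        (J.mul_mem_left _ C0)) (J.mul_mem_left _ B0)))
  · apply jetIdeal_le_ker
    rintro e (rfl | rfl | rfl)
    · rw [prod_pair' 0 1 (by decide)]
      refine ⟨Polynomial.C (X (0, 2)) *
        (Polynomial.C (X (1, 1)) + Polynomial.C (X (1, 2)) * Polynomial.X), ?_⟩
      simp [Fin.sum_univ_three, kill_X]
      ring
    · rw [prod_pair' 1 2 (by decide)]
      refine ⟨Polynomial.C (X (2, 2)) *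
        (Polynomial.C (X (1, 1)) + Polynomial.C (X (1, 2)) * Polynomial.X), ?_⟩
      simp [Fin.sum_univ_three, kill_X]
      ring
    · rw [prod_pair' 0 2 (by decide)]
      refine ⟨Polynomial.C (X (0, 2)) * Polynomial.C (X (2, 2)) * Polynomial.X, ?_⟩
      simp [Fin.sum_univ_three, kill_X]
      ring

/-- Over every field `k` there are a clutter `C` (the triangle) and an `s` (`s = 1` if
`char k ≠ 2`, `s = 2` if `char k = 2`) such that the `s`-jet ideal of the edge ideal of `C` has an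
embedded component. -/
theorem result (k : Type) [Field k] :
    ((2 : k) ≠ 0 → HasEmbeddedComponent (jetIdeal k 1 (edgeIdeal k triangle))) ∧
    ((2 : k) = 0 → HasEmbeddedComponent (jetIdeal k 2 (edgeIdeal k triangle))) :=
  ⟨caseA, caseB⟩

end Pool.Agent.Results.MP_dc74b6_ag.EmbeddedJets
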